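import Mathlib
import Pool.Agent.Chud.Defs
import Pool.Agent.Chud.PJ

set_option autoImplicit false

namespace Pool.Agent.Results.MP_5c592f_ag.PlaneEquality

open MvPolynomial Filter Topology Pool.Agent.Chud

variable {k : Type*} [Field k]

lemma exists_ne_point (p : PP k 2) : ∃ q : PP k 2, q ≠ p := by
  have h1 : (Pi.single 0 1 : Fin 3 → k) ≠ 0 := by
    intro h
    have := congrFun h 0
    simp at this
  have h2 : (Pi.single 1 1 : Fin 3 → k) ≠ 0 := by
    intro h
    have := congrFun h 1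
    simp at this
  by_cases hp : Projectivization.mk k _ h1 = p
  · refine ⟨Projectivization.mk k _ h2, ?_⟩
    rw [← hp]
    intro h
    rw [Projectivization.mk_eq_mk_iff'] at h
    obtain ⟨a, ha⟩ := h
    have := congrFun ha 1
    simp at this
  · exact ⟨_, hp⟩

lemma exists_line (p : PP k 2) : ∃ h : PP k 2, OnH h p := by
  obtain ⟨q, hq⟩ := exists_ne_point p
  obtain ⟨h, h1, -⟩ := exists_OnH_not hq.symm
  exact ⟨h, h1⟩

lemma exists_form (S : Finset (PP k 2)) (m : ℕ) :
    {d | ∃ F : MvPolynomial (Fin (2 + 1)) k, F ≠ 0 ∧ F.IsHomogeneous d ∧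
      ∀ p ∈ S, VanishAt F m p}.Nonempty := by
  choose h hh using (exists_line (k := k))
  refine ⟨∑ p ∈ S, 1 * m, ∏ p ∈ S, lin (h p) ^ m, ?_, ?_, ?_⟩
  · exact Finset.prod_ne_zero_iff.2 (fun p _ => pow_ne_zero _ (lin_ne_zero _))
  · exact IsHomogeneous.prod S (fun p => lin (h p) ^ m) (fun _ => 1 * m)
      (fun p _ => (lin_homog (h p)).pow m)
  · intro p hp
    classical
    rw [VanishAt, ← Finset.mul_prod_erase _ _ hp]
    apply Ideal.mul_mem_right
    apply Ideal.pow_mem_pow
    rw [mI, RingHom.mem_ker]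
    exact (eval_lin _ _).2 (hh p)

lemma aS_spec (S : Finset (PP k 2)) (m : ℕ) :
    ∃ F : MvPolynomial (Fin (2 + 1)) k, F ≠ 0 ∧ F.IsHomogeneous (aS S m) ∧
      ∀ p ∈ S, VanishAt F m p := Nat.sInf_mem (exists_form S m)

/-- **Equality in Chudnovsky's bound for finite sets of points of the plane.** Let `S` be a finite
set of points of the projective plane over an algebraically closed field (of any characteristic).
If `a(S,m)/m = (a(S,1)+N-1)/N` (with `N = 2`) for some `m ≥ 1`, or if the limit of `a(S,m)/m` is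
equal to `(a(S,1)+N-1)/N`, then `S` is contained in a line or `S` is a star configuration. -/
theorem result (k : Type*) [Field k] [IsAlgClosed k] (S : Finset (PP k 2))
    (h : (∃ m : ℕ, 1 ≤ m ∧ (aS S m : ℝ) / m = ((aS S 1 : ℝ) + (2 : ℕ) - 1) / (2 : ℕ)) ∨
      Tendsto (fun m : ℕ => (aS S m : ℝ) / m) atTop (𝓝 (((aS S 1 : ℝ) + (2 : ℕ) - 1) / (2 : ℕ)))) :
    InHyperplane S ∨ IsStar S := by
  classical
  set α := aS S 1 with hα
  obtain ⟨F₁, hF₁0, hF₁h, hF₁v⟩ := aS_spec S 1
  rw [← hα] at hF₁h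
  have hF₁e : ∀ p ∈ S, eval p.rep F₁ = 0 := by
    intro p hp
    have := hF₁v p hp
    rw [VanishAt, pow_one, mI, RingHom.mem_ker] at this
    exact this
  rcases Nat.lt_or_ge α 2 with hα2 | hα2
  · left
    interval_cases hα' : α
    · -- α = 0
      have hS : S = ∅ := by
        rw [Finset.eq_empty_iff_forall_notMem]
        intro p hp
        have h1 := hF₁e p hp
        have h2 : F₁ = C (coeff 0 F₁) := by
          rw [← totalDegree_eq_zero_iff_eq_C]
          exact Nat.le_zero.1 (hF₁h.totalDegree_le)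
        rw [h2, eval_C] at h1
        rw [h1, C_0] at h2
        exact hF₁0 h2
      have h1 : (Pi.single 0 1 : Fin 3 → k) ≠ 0 := by
        intro h
        have := congrFun h 0
        simp at this
      refine ⟨Projectivization.mk k _ h1, ?_⟩
      rw [hS]
      intro p hp
      simp at hp
    · obtain ⟨h1, c, hc, hF⟩ := exists_lin hF₁h hF₁0
      refine ⟨h1, ?_⟩
      intro p hp
      have h2 := hF₁e p hp
      rw [hF, map_mul, eval_C] at h2
      rcases mul_eq_zero.1 h2 with h3 | h3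
      · exact absurd h3 hc
      · exact (eval_lin _ _).1 h3
  · right
    have hS1 : ∀ F : MvPolynomial (Fin 3) k, F.IsHomogeneous (α - 1) →
        (∀ w ∈ S, eval w.rep F = 0) → F = 0 := by
      intro F hF hFe
      by_contra hF0
      have hmem : α - 1 ∈ {d | ∃ F : MvPolynomial (Fin (2 + 1)) k, F ≠ 0 ∧ F.IsHomogeneous d ∧
          ∀ p ∈ S, VanishAt F 1 p} := by
        refine ⟨F, hF0, hF, ?_⟩
        intro p hp
        rw [VanishAt, pow_one, mI, RingHom.mem_ker]
        exact hFe p hp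
      have hle : α ≤ α - 1 := Nat.sInf_le hmem
      omega
    obtain ⟨W, hWS, f, hW⟩ := exists_W (by omega : 1 ≤ α) hS1
    have hS2 : ∀ ε : ℝ, 0 < ε → ∃ (m d : ℕ) (F : MvPolynomial (Fin 3) k), 1 ≤ m ∧ F ≠ 0 ∧
        F.IsHomogeneous d ∧ (∀ p ∈ S, F ∈ mI p.rep ^ m) ∧ (2 * d : ℝ) ≤ (α + 1 + ε) * m := by
      intro ε hε
      -- it suffices to find m with a(S,m)/m ≤ (α+1+ε)/2
      obtain ⟨m, hm, hle⟩ : ∃ m : ℕ, 1 ≤ m ∧ (aS S m : ℝ) / m ≤ ((α : ℝ) + 1 + ε) / 2 := by
        rcases h with ⟨m, hm, heq⟩ | hlim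
        · refine ⟨m, hm, ?_⟩
          rw [heq]
          push_cast
          linarith
        · have h1 : ((α : ℝ) + (2 : ℕ) - 1) / (2 : ℕ) < ((α : ℝ) + 1 + ε) / 2 := by
            push_cast
            linarith
          have h2 := hlim.eventually (gt_mem_nhds h1)
          obtain ⟨m, hm1, hm2⟩ := (h2.and (eventually_ge_atTop 1)).exists
          exact ⟨m, hm2, hm1.le⟩
      obtain ⟨F, hF0, hFh, hFv⟩ := aS_spec S m
      refine ⟨m, aS S m, F, hm, hF0, hFh, hFv, ?_⟩
      have hm0 : (0 : ℝ) < m := by exact_mod_cast hm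
      rw [div_le_iff₀ hm0] at hle
      linarith
    obtain ⟨L, γ, hL, hγ, hsum, hSγ⟩ := limit_weights hWS hW hα2 hS2
    exact star_of_weights hWS hW hα2 L γ hL hγ hsum hSγ

end Pool.Agent.Results.MP_5c592f_ag.PlaneEquality
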